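import Pool.Agent.H551R3.KokFinal

set_option autoImplicit false

namespace Pool.Agent.Results.MP_b27eb5_al.SimpleKokorisIsField

open Pool.Agent.H551R3.Kok

universe u

/-- Over every field of characteristic not two, every simple Kokoris algebra lying in a locally
admissible variety is a field. -/
theorem result (F : Type u) [Field F] (h2 : (2 : F) ≠ 0)
    (T : Set (FreeNonUnitalNonAssocAlgebra F ℕ)) (hT : LocallyAdmissible T)
    (A : Type u) [NonUnitalNonAssocRing A] [Module F A] [IsScalarTower F A A]
    [SMulCommClass F A A] (hA : Sat T A) (hK : IsKokoris A) (hs : IsSimpleAlg F A) :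
    IsFieldAlg A :=
  isFieldAlg_of_locallyAdmissible h2 hT hA hK hs

end Pool.Agent.Results.MP_b27eb5_al.SimpleKokorisIsField
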